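import Mathlib
import Pool.Agent.Lib.Helper95.Hull.Main

/-!
# Random vectors generating convex-stable sets by coordinate hulls

For `x` in `ℝ^d` let `hullSet x` be the closed convex hull of the `d` half-lines `{s e_i : s ≤ x i}`.  Its support
function on the positive orthant is `u ↦ max_i x i * u i`, so `hullSet x` depends on `x` only through `red x`, which
is the vector of positive parts if some coordinate of `x` is nonnegative and `x` itself otherwise.

The main theorem `result` determines all laws of random vectors `ξ` for which `hullSet ξ` is convex-stable:
either the law of `red ξ` is strictly max-stable (this is the case where `hullSet ξ` is strictly convex-stable), or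
`red ξ` has the law of `(c + ρ) v` with a fixed vector `v ≥ 0`, `v ≠ 0`, a constant `c > 0` and a real random
variable `ρ` with a Fréchet law, or `d = 1` (where `hullSet ξ` is the half-line ending at `ξ` and convex-stability is
max-stability of `ξ` up to scaling and translation).

Idea of the proof.  If `a_n X` is equal in law to the hull of `X_1, ..., X_n` plus `K_n`, then almost surely
`S_η + κ = S_y` on the orthant for some `y`, where `S_x (u) = max_i x i * u i`, `η` is the maximum of `n` copies of
`ξ` and `κ` is the support function of `K_n`.  The key lemma (`key`) says that two reduced vectors `x, x'` with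
`S_x + κ = S_y` and `S_x' + κ = S_y'` lie on a common ray unless `κ` vanishes on the orthant.  Hence either all `κ`
vanish, and `red ξ` is strictly max-stable, or `red ξ` is concentrated on a ray, and the problem becomes one-dimensional.
-/

open MeasureTheory
open scoped Pointwise

namespace Pool.Agent.Results.MP_57d4a6_pr.Classification

open Pool.Agent.Helper95.Hull

theorem result {d : ℕ} (hd : 1 ≤ d) {Ω : Type*} [MeasurableSpace Ω] (μ : Measure Ω) [IsProbabilityMeasure μ]
    (ξ : Ω → Fin d → ℝ) (hξ : Measurable ξ) :
    (ConvexStable μ (fun ω => hullSet (ξ ω)) ↔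
      MaxStable (μ.map (fun ω => red (ξ ω))) ∨ ShiftedFrechetRay (μ.map (fun ω => red (ξ ω))) ∨
        (d = 1 ∧ AffineMaxStable (μ.map ξ))) ∧
    (StrictlyConvexStable μ (fun ω => hullSet (ξ ω)) ↔ MaxStable (μ.map (fun ω => red (ξ ω)))) := by
  have hne : Nonempty (Fin d) := ⟨⟨0, by omega⟩⟩
  have hpr : IsProbabilityMeasure (μ.map ξ) := Measure.isProbabilityMeasure_map hξ.aemeasurable
  have hmap : μ.map (fun ω => red (ξ ω)) = (μ.map ξ).map red := (Measure.map_map measurable_red hξ).symm
  have hstrict : StrictlyConvexStable μ (fun ω => hullSet (ξ ω)) ↔ MaxStable (μ.map (fun ω => red (ξ ω))) := by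
    rw [hmap, strict_map hξ]
    exact ⟨maxStable_of_strict, strict_of_maxStable⟩
  refine ⟨?_, hstrict⟩
  constructor
  · intro h
    rcases hd.eq_or_lt with h1 | h1
    · right; right
      subst h1
      exact ⟨rfl, (classification_one hξ).mp h⟩
    · rcases (classification h1 hξ).1.mp h with h2 | h2
      · exact Or.inl h2
      · exact Or.inr (Or.inl h2)
  · rintro (h | h | ⟨rfl, h⟩)
    · rw [convexStable_map hξ]
      exact convexStable_of_strict ((strict_map hξ).mp (hstrict.mpr h))
    · rw [convexStable_map hξ]
      rw [hmap] at h
      exact convexStable_of_shifted h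
    · exact (classification_one hξ).mpr h

end Pool.Agent.Results.MP_57d4a6_pr.Classification
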